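import Pool.Agent.NPC.Defs

/-!
# Optimal-colouring reconfiguration: definitions
-/

set_option autoImplicit false

namespace Pool.Agent.Q230.RC

open Pool.Agent.NPC

/-- The graph given by a number `n` of vertices `0, …, n - 1` and a list of edges. -/
def graph (G : ℕ × List (ℕ × ℕ)) : SimpleGraph (Fin G.1) :=
  SimpleGraph.fromRel fun u v => (u.1, v.1) ∈ G.2

/-- A graph is perfect if each of its induced subgraphs has chromatic number equal to its clique
number. -/
def Perfect {V : Type} (G : SimpleGraph V) : Prop :=
  ∀ s : Set V, (G.induce s).chromaticNumber = ((G.induce s).cliqueNum : ℕ∞)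

/-- `f` is a (proper) `k`-colouring of `G`, with the colours `1, …, k`. -/
def IsCol {V : Type} (G : SimpleGraph V) (k : ℕ) (f : V → ℕ) : Prop :=
  (∀ v, 1 ≤ f v ∧ f v ≤ k) ∧ ∀ u v, G.Adj u v → f u ≠ f v

/-- One step: a single vertex is recoloured, and the result is again a `k`-colouring. -/
def Step {V : Type} (G : SimpleGraph V) (k : ℕ) (f g : V → ℕ) : Prop :=
  IsCol G k g ∧ ∃ v, ∀ u, u ≠ v → f u = g u

/-- `g` is `k`-reachable from `f`. -/
def Reach {V : Type} (G : SimpleGraph V) (k : ℕ) (f g : V → ℕ) : Prop :=
  IsCol G k f ∧ Relation.ReflTransGen (Step G k) f g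

/-- The number of colours used by `f`. -/
def col {V : Type} [Fintype V] (f : V → ℕ) : ℕ := (Finset.univ.image f).card

/-- `χ(G, k, f₀)`: the least number of colours used by a colouring which is `k`-reachable from
`f₀` (and `⊤` if there is none). -/
noncomputable def chi {V : Type} [Fintype V] (G : SimpleGraph V) (k : ℕ) (f₀ : V → ℕ) : ℕ∞ :=
  ⨅ f : V → ℕ, ⨅ _ : Reach G k f₀ f, (col f : ℕ∞)

/-- Instances `((n, E), k, F)`: a graph given by `n` and its edges `E`, a number `k` and the list
`F` of the colours of the vertices in the given colouring. -/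
abbrev Inst : Type := (ℕ × List (ℕ × ℕ)) × ℕ × List ℕ

/-- The given colouring. -/
def start (I : Inst) : Fin I.1.1 → ℕ := fun v => I.2.2.getD v.1 0

/-- `χ(G, k, f₀)` for the given instance. -/
noncomputable def opt (I : Inst) : ℕ∞ := chi (graph I.1) I.2.1 (start I)

/-- The instances of the problem: the graph has at least one edge, and the list gives a
`k`-colouring of it. -/
def Valid (I : Inst) : Prop :=
  (∃ u v, (graph I.1).Adj u v) ∧ I.2.2.length = I.1.1 ∧ IsCol (graph I.1) I.2.1 (start I)

/-- Optimal-colouring reconfiguration on perfect graphs as a decision problem: the graph is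
perfect, and `χ(G, k, f₀) ≤ q`, where the number `q` is part of the input. -/
def OCR (I : Inst × ℕ) : Prop := Valid I.1 ∧ Perfect (graph I.1.1) ∧ opt I.1 ≤ I.2

/-- Every problem in `NP` has a polynomial-time reduction to the gap version on bipartite (hence
perfect) graphs: all produced instances `(G, k, f₀)` are valid, `G` is bipartite and perfect with
at most `3 k` vertices, `k ≥ 5`, and `χ(G, k, f₀)` is `2` for yes-instances and `k` for
no-instances. -/
def Gap : Prop :=
  ∀ L : Set (List Bool), InNP L → ∃ r : List Bool → List Bool, PolyTime r ∧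
    ∀ x, ∃ I : Inst, bits I = r x ∧ Valid I ∧ (graph I.1).Colorable 2 ∧ Perfect (graph I.1) ∧
      5 ≤ I.2.1 ∧ I.1.1 ≤ 3 * I.2.1 ∧
      (x ∈ L → opt I = 2) ∧ (x ∉ L → opt I = I.2.1)

end Pool.Agent.Q230.RC
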