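import Pool.Agent.Q230.RC.Defs

set_option autoImplicit false

namespace Pool.Agent.Q230.RC

open Relation

theorem perfect_of_two {V : Type} [Finite V] {G : SimpleGraph V} (h : G.Colorable 2) :
    Perfect G := by
  classical
  intro s
  have hc : (G.induce s).Colorable 2 := h.of_hom (SimpleGraph.Embedding.induce s).toHom
  haveI : Finite s := inferInstance
  haveI := Fintype.ofFinite s
  have h1 : ((G.induce s).cliqueNum : ℕ∞) ≤ (G.induce s).chromaticNumber := by
    obtain ⟨t, ht⟩ := (G.induce s).exists_isNClique_cliqueNum
    have := ht.isClique.card_le_chromaticNumber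
    rw [ht.card_eq] at this
    exact this
  refine le_antisymm ?_ h1
  by_cases he : ∃ u v, (G.induce s).Adj u v
  · obtain ⟨u, v, huv⟩ := he
    have h2 : 2 ≤ (G.induce s).cliqueNum := by
      have : (G.induce s).IsClique (({u, v} : Finset s) : Set s) := by
        intro a ha b hb hab
        simp only [Finset.coe_insert, Finset.coe_singleton, Set.mem_insert_iff,
          Set.mem_singleton_iff] at ha hb
        rcases ha with rfl | rfl <;> rcases hb with rfl | rfl
        · exact absurd rfl hab
        · exact huv
        · exact huv.symm
        · exact absurd rfl hab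
      have h3 := this.card_le_cliqueNum
      rwa [Finset.card_pair huv.ne] at h3
    calc (G.induce s).chromaticNumber ≤ (2 : ℕ) := hc.chromaticNumber_le
      _ ≤ ((G.induce s).cliqueNum : ℕ∞) := by exact_mod_cast h2
  · push_neg at he
    by_cases hn : Nonempty s
    · have h4 : (G.induce s).Colorable 1 :=
        ⟨SimpleGraph.Coloring.mk (fun _ => 0) (fun {u v} huv => absurd huv (he u v))⟩
      have h5 : 1 ≤ (G.induce s).cliqueNum := by
        obtain ⟨x⟩ := hn
        have : (G.induce s).IsClique (({x} : Finset s) : Set s) := by simp
        have h3 := this.card_le_cliqueNum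
        rwa [Finset.card_singleton] at h3
      calc (G.induce s).chromaticNumber ≤ (1 : ℕ) := h4.chromaticNumber_le
        _ ≤ ((G.induce s).cliqueNum : ℕ∞) := by exact_mod_cast h5
    · rw [not_nonempty_iff] at hn
      have h4 : (G.induce s).Colorable 0 :=
        ⟨SimpleGraph.Coloring.mk (fun x => (hn.false x).elim) (fun {u v} huv => absurd huv (he u v))⟩
      calc (G.induce s).chromaticNumber ≤ (0 : ℕ) := h4.chromaticNumber_le
        _ ≤ _ := by simp

/-- Recolouring all vertices with changed colours one after the other. -/
theorem reach_of {V : Type} [Finite V] {G : SimpleGraph V} {k : ℕ} {f g : V → ℕ}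
    (hf : IsCol G k f) (hg : IsCol G k g)
    (h : ∀ u v, G.Adj u v → f u = g u ∨ f v = g v) : Reach G k f g := by
  classical
  haveI := Fintype.ofFinite V
  have hm : ∀ T : Finset V, IsCol G k (fun v => if v ∈ T then g v else f v) := by
    intro T
    refine ⟨fun v => ?_, fun u v huv => ?_⟩
    · by_cases hv : v ∈ T
      · simp only [hv, if_true]; exact hg.1 v
      · simp only [hv, if_false]; exact hf.1 v
    · have h1 := hf.2 u v huv
      have h2 := hg.2 u v huv
      simp only
      rcases h u v huv with e | e
      · split_ifs
        · exact h2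
        · rw [← e]; exact h1
        · rw [e]; exact h2
        · exact h1
      · split_ifs
        · exact h2
        · rw [e]; exact h2
        · rw [← e]; exact h1
        · exact h1
  refine ⟨hf, ?_⟩
  have key : ∀ T : Finset V, ReflTransGen (Step G k) f (fun v => if v ∈ T then g v else f v) := by
    intro T
    induction T using Finset.induction_on with
    | empty => simpa using ReflTransGen.refl
    | insert a T ha ih =>
      refine ih.tail ⟨hm _, a, fun u hu => ?_⟩
      simp [Finset.mem_insert, hu]
  have := key Finset.univ
  simpa using this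

theorem Reach.trans {V : Type} {G : SimpleGraph V} {k : ℕ} {f g h : V → ℕ}
    (h1 : Reach G k f g) (h2 : Reach G k g h) : Reach G k f h := ⟨h1.1, h1.2.trans h2.2⟩

theorem Reach.isCol {V : Type} {G : SimpleGraph V} {k : ℕ} {f g : V → ℕ}
    (h : Reach G k f g) : IsCol G k g := by
  obtain ⟨h1, h2⟩ := h
  induction h2 with
  | refl => exact h1
  | tail _ h3 _ => exact h3.1

theorem two_le_col {V : Type} [Fintype V] {G : SimpleGraph V} {k : ℕ} {f : V → ℕ}
    (hf : IsCol G k f) {u v : V} (h : G.Adj u v) : 2 ≤ col f := by
  classical
  unfold col
  have h1 : ({f u, f v} : Finset ℕ) ⊆ Finset.univ.image f := by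
    intro x hx
    simp only [Finset.mem_insert, Finset.mem_singleton] at hx
    rcases hx with rfl | rfl
    · exact Finset.mem_image_of_mem _ (Finset.mem_univ _)
    · exact Finset.mem_image_of_mem _ (Finset.mem_univ _)
  have := Finset.card_le_card h1
  rwa [Finset.card_pair (hf.2 u v h)] at this

theorem col_le {V : Type} [Fintype V] {G : SimpleGraph V} {k : ℕ} {f : V → ℕ}
    (hf : IsCol G k f) : col f ≤ k := by
  classical
  unfold col
  have h1 : Finset.univ.image f ⊆ Finset.Icc 1 k := by
    intro x hx
    simp only [Finset.mem_image, Finset.mem_univ, true_and] at hx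
    obtain ⟨v, rfl⟩ := hx
    exact Finset.mem_Icc.2 (hf.1 v)
  have := Finset.card_le_card h1
  simpa using this

end Pool.Agent.Q230.RC
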