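import Pool.Agent.Q230.RC.Yes
import Pool.Agent.H671R2.PolyAuto

set_option autoImplicit false

namespace Pool.Agent.Q230.RC

open Pool.Agent.NPC Relation

section poly

theorem poly_kk {α : Type} [TEnc α] {φ : α → Fm} (h : NPC.Poly φ) :
    NPC.Poly (fun a => kk (φ a)) := by
  unfold kk; fun_prop

theorem poly_op {α : Type} [TEnc α] {l : α → Bool × ℕ} (h : NPC.Poly l) :
    NPC.Poly (fun a => op (l a)) := by
  unfold op; fun_prop

theorem poly_LA {α : Type} [TEnc α] {k p : α → ℕ} (hk : NPC.Poly k) (hp : NPC.Poly p) :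
    NPC.Poly (fun a => LA (k a) (p a)) := by
  unfold LA; fun_prop

theorem poly_cl {α : Type} [TEnc α] {φ : α → Fm} {c : α → ℕ} (h : NPC.Poly φ)
    (hc : NPC.Poly c) : NPC.Poly (fun a => cl (φ a) (c a)) := by
  unfold cl; fun_prop

theorem poly_LB {α : Type} [TEnc α] {φ : α → Fm} {q : α → ℕ} (h : NPC.Poly φ)
    (hq : NPC.Poly q) : NPC.Poly (fun a => LB (φ a) (q a)) := by
  have hk := poly_kk h
  have h1 : NPC.Poly (fun a => cl (φ a) (q a - (kk (φ a) + 2))) := poly_cl h (by fun_prop)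
  have h2 := poly_op h1.fst
  have h3 := poly_op h1.snd.fst
  have h4 := poly_op h1.snd.snd
  unfold LB; fun_prop

theorem poly_bip {α : Type} [TEnc α] {φ : α → Fm} {p q : α → ℕ} (h : NPC.Poly φ)
    (hp : NPC.Poly p) (hq : NPC.Poly q) : NPC.Poly (fun a => bip (φ a) (p a) (q a)) := by
  have hk := poly_kk h
  have h1 := poly_LA hk hp
  have h2 := poly_LB h hq
  unfold bip; fun_prop

theorem poly_nA {α : Type} [TEnc α] {φ : α → Fm} (h : NPC.Poly φ) :
    NPC.Poly (fun a => nA (φ a)) := by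
  have hk := poly_kk h
  unfold nA; fun_prop

theorem poly_nB {α : Type} [TEnc α] {φ : α → Fm} (h : NPC.Poly φ) :
    NPC.Poly (fun a => nB (φ a)) := by
  have hk := poly_kk h
  unfold nB; fun_prop

theorem upoly_kk {α : Type} [TEnc α] {φ : α → Fm} (h : NPC.Poly φ) :
    UPoly (fun a => kk (φ a)) :=
  UPoly.add (UPoly.mul (UPoly.const 6) (UPoly.length h)) (UPoly.const 5)

theorem upoly_nA {α : Type} [TEnc α] {φ : α → Fm} (h : NPC.Poly φ) :
    UPoly (fun a => nA (φ a)) :=
  UPoly.add (UPoly.add (upoly_kk h) (UPoly.const 2)) (UPoly.mul (UPoly.const 3) (UPoly.length h))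

theorem upoly_nB {α : Type} [TEnc α] {φ : α → Fm} (h : NPC.Poly φ) :
    UPoly (fun a => nB (φ a)) :=
  UPoly.add (UPoly.add (upoly_kk h) (UPoly.const 2)) (UPoly.length h)

theorem poly_edges : NPC.Poly edges := by
  unfold edges
  have hA := (upoly_nA (Poly.id (α := Fm))).range
  refine Poly.flatMap (F := fun (φ : Fm) p =>
    ((List.range (nB φ)).filter fun q => bip φ p q).map fun q => (p, nA φ + q)) hA ?_
  have h1 : NPC.Poly (fun x : Fm × ℕ => x.1) := Poly.fst Poly.id
  have h2 : NPC.Poly (fun x : Fm × ℕ => x.2) := Poly.snd Poly.id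
  have hB := (upoly_nB h1).range
  have hf : NPC.Poly (fun x : Fm × ℕ => (List.range (nB x.1)).filter fun q => bip x.1 x.2 q) :=
    Poly.filter (p := fun (x : Fm × ℕ) q => bip x.1 x.2 q) hB
      (poly_bip (h1.comp (Poly.fst Poly.id)) (h2.comp (Poly.fst Poly.id)) (Poly.snd Poly.id))
  have hn := poly_nA (Poly.fst (Poly.fst (Poly.id (α := (Fm × ℕ) × ℕ))))
  refine NPC.Poly.map (F := fun (x : Fm × ℕ) q => (x.2, nA x.1 + q)) hf ?_
  fun_prop

theorem poly_inst : NPC.Poly inst := by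
  unfold inst
  have hA := poly_nA (Poly.id (α := Fm))
  have hB := poly_nB (Poly.id (α := Fm))
  have hk := poly_kk (Poly.id (α := Fm))
  have hr : NPC.Poly (fun φ : Fm => List.range (nA φ + nB φ)) :=
    (UPoly.add (upoly_nA (Poly.id (α := Fm))) (upoly_nB Poly.id)).range
  have hA' := poly_nA (Poly.fst (Poly.id (α := Fm × ℕ)))
  have hk' := poly_kk (Poly.fst (Poly.id (α := Fm × ℕ)))
  refine Poly.pair (Poly.pair (Poly.add hA hB) poly_edges) (Poly.pair hk
    (NPC.Poly.map (F := fun (φ : Fm) u =>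
      if u < nA φ then cA (kk φ) u + 1 else cB (kk φ) (u - nA φ) + 1) hr ?_))
  unfold cA cB
  fun_prop

end poly

theorem exists_adj {φ : Fm} : ∃ u v, (GG φ).Adj u v := by
  have h5 := kk_big φ
  have hAk : kk φ + 2 ≤ nA φ := by unfold nA; omega
  have hBk : kk φ + 2 ≤ nB φ := by unfold nB; omega
  refine ⟨⟨2, by omega⟩, ⟨nA φ + 3, by omega⟩, adj_iff.2 (Or.inl ⟨by simp; omega, by simp, ?_⟩)⟩
  simp only [Nat.add_sub_cancel_left]
  rw [bip_lt (by omega)]
  unfold LA
  rw [if_neg (by omega), if_pos (by omega)]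
  simp

theorem valid_inst {φ : Fm} (hb : Bounded3 φ) : Valid (inst φ) := by
  refine ⟨exists_adj, by simp [inst], ?_⟩
  rw [start_inst]
  exact isCol_toF (pr00 hb)

theorem opt_sat {φ : Fm} (hb : Bounded3 φ) (h : SAT3 φ) : opt (inst φ) = 2 := by
  obtain ⟨τ, hτ⟩ := h
  unfold opt chi
  rw [start_inst]
  refine le_antisymm ?_ ?_
  · refine (iInf₂_le _ (reach_two hb hτ)).trans ?_
    exact_mod_cast col_two φ
  · refine le_iInf fun f => le_iInf fun hf => ?_
    obtain ⟨u, v, huv⟩ := exists_adj (φ := φ)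
    exact_mod_cast two_le_col hf.isCol huv

theorem opt_unsat {φ : Fm} (hb : Bounded3 φ) (h : ¬ SAT3 φ) : opt (inst φ) = kk φ := by
  unfold opt chi
  rw [start_inst]
  refine le_antisymm ?_ ?_
  · refine (iInf₂_le (toF φ (cA (kk φ)) (cB (kk φ)))
      ⟨isCol_toF (pr00 hb), ReflTransGen.refl⟩).trans ?_
    exact_mod_cast col_le (isCol_toF (pr00 hb))
  · refine le_iInf fun f => le_iInf fun hf => ?_
    exact_mod_cast (col_locked hb h hf).ge

theorem gap : Gap := by
  intro L hL
  obtain ⟨f, hf, hpr, hfL⟩ := hardPr_SAT3b L hL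
  refine ⟨fun x => bits (inst (f x)), PC.toPolyTime_bits poly_inst f hf, fun x => ?_⟩
  obtain ⟨-, hb, -⟩ := hpr x
  refine ⟨inst (f x), rfl, valid_inst hb, two_colorable _, perfect_of_two (two_colorable _),
    kk_big _, ?_, fun h => opt_sat hb ((hfL x).1 h), fun h => opt_unsat hb (fun h' => h ((hfL x).2 h'))⟩
  change nA (f x) + nB (f x) ≤ 3 * kk (f x)
  unfold nA nB kk
  omega

theorem ocr_hard : NPHardP OCR := by
  have h := hardPr_SAT3b.trans (Pr' := fun _ => True) (Q := OCR) (f := fun φ => (inst φ, 2))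
    (Poly.pair poly_inst (NPC.Poly.const 2)) (fun _ _ => trivial) (by
      rintro φ ⟨-, hb, -⟩
      constructor
      · intro h
        exact ⟨valid_inst hb, perfect_of_two (two_colorable _), (opt_sat hb h).le⟩
      · rintro ⟨-, -, h⟩
        by_contra hn
        have h1 := opt_unsat hb hn
        simp only at h
        rw [h1] at h
        have h2 := kk_big φ
        have : kk φ ≤ 2 := by exact_mod_cast h
        omega)
  exact h.toHardI.toNPHardP

end Pool.Agent.Q230.RC
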