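import Pool.Agent.Q230.RC.Red

set_option autoImplicit false

namespace Pool.Agent.Q230.RC

open Pool.Agent.NPC Relation

/-- the locked colourings -/
structure Lk (φ : Fm) (a b : ℕ → ℕ) : Prop where
  ha : ∀ p < kk φ, a p = p
  hb : ∀ q < kk φ, b q = q
  hy : a (kk φ) = 0
  hw : a (kk φ + 1) = 3
  hz : b (kk φ) = 1
  hz' : b (kk φ + 1) = 2
  hA : ∀ p < nA φ, a p ∈ LA (kk φ) p
  hB : ∀ q < nB φ, b q ∈ LB φ q

theorem bip_big {φ : Fm} {p q : ℕ} (hp : kk φ ≤ p) (hq : kk φ ≤ q) :
    bip φ p q = true ↔ (p = kk φ ∧ q = kk φ + 1) ∨ p = kk φ + 1 ∨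
      (kk φ + 2 ≤ p ∧ kk φ + 2 ≤ q) := by
  unfold bip
  rw [if_neg (by omega), if_neg (by omega)]
  by_cases h1 : p = kk φ
  · rw [if_pos h1]
    simp only [decide_eq_true_eq]
    omega
  · rw [if_neg h1]
    by_cases h2 : p = kk φ + 1
    · rw [if_pos h2]; simp [h2]
    · rw [if_neg h2]
      simp only [decide_eq_true_eq]
      omega

theorem cl_mem {φ : Fm} {c : ℕ} (hc : c < φ.length) : cl φ c ∈ φ := by
  unfold cl
  rw [List.getD_eq_getElem _ _ hc]
  exact List.getElem_mem hc

theorem op_val {l : Bool × ℕ} {x : ℕ} (h1 : x = 5 + 2 * l.2 ∨ x = 6 + 2 * l.2) (h2 : x ≠ op l) :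
    decide (x = 5 + 2 * l.2) = l.1 := by
  obtain ⟨b, i⟩ := l
  unfold op at h2
  simp only at h1 h2 ⊢
  cases b
  · simp only [Bool.false_eq_true, if_false] at h2
    simp only [decide_eq_false_iff_not]
    omega
  · simp only [if_true] at h2
    simp only [decide_eq_true_eq]
    omega

theorem lk_stepA {φ : Fm} (hb : Bounded3 φ) (hn : ¬ SAT3 φ) {a a' b : ℕ → ℕ} (h : Lk φ a b)
    (h' : Pr φ a' b) : Lk φ a' b := by
  have h5 := kk_big φ
  have hAk : kk φ + 2 ≤ nA φ := by unfold nA; omega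
  have hBk : kk φ + 2 ≤ nB φ := by unfold nB; omega
  have hL : ∀ p < nA φ, a' p ∈ LA (kk φ) p := by
    intro p hp
    by_contra hc
    have hq := h'.1 p hp
    have := h'.2.2 p hp (a' p) (by omega) ((bip_lt hq).2 hc)
    exact this (h.hb _ hq).symm
  refine ⟨?_, h.hb, ?_, ?_, h.hz, h.hz', hL, h.hB⟩
  · intro p hp
    have h1 := hL p (by omega)
    by_cases h0 : p = 0
    · subst h0
      have h2 : a' 0 ≠ 1 := by
        have := h'.2.2 0 (by omega) (kk φ) (by omega) ((bip_lt' (by omega)).2 (by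
          unfold LB
          rw [if_neg (by omega), if_neg (by omega), if_pos rfl]; simp))
        rwa [h.hz] at this
      unfold LA at h1
      simp only [if_true, List.mem_cons, List.not_mem_nil, or_false] at h1
      omega
    · unfold LA at h1
      rw [if_neg h0, if_pos hp] at h1
      simpa using h1
  · have h1 := hL (kk φ) (by omega)
    unfold LA at h1
    rw [if_neg (by omega), if_neg (by omega), if_pos rfl] at h1
    have h2 := h'.2.2 (kk φ) (by omega) (kk φ + 1) (by omega)
      ((bip_big le_rfl (by omega)).2 (Or.inl ⟨rfl, rfl⟩))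
    rw [h.hz'] at h2
    simp only [List.mem_cons, List.not_mem_nil, or_false] at h1
    omega
  · have h1 := hL (kk φ + 1) (by omega)
    unfold LA at h1
    rw [if_neg (by omega), if_neg (by omega), if_neg (by omega), if_pos rfl] at h1
    simp only [List.mem_cons, List.not_mem_nil, or_false] at h1
    rcases h1 with h1 | h1
    · exact h1
    exfalso
    apply hn
    refine ⟨fun i => decide (a' (kk φ + 2 + i) = 5 + 2 * i), ?_⟩
    intro d hd
    obtain ⟨c, hc, rfl⟩ := List.getElem_of_mem hd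
    have ec : cl φ c = φ[c] := by unfold cl; rw [List.getD_eq_getElem _ _ hc]
    have hq : kk φ + 2 + c < nB φ := by unfold nB; omega
    have h2 := h.hB _ hq
    have h3 := h'.2.2 (kk φ + 1) (by omega) (kk φ + 2 + c) hq
      ((bip_big (by omega) (by omega)).2 (Or.inr (Or.inl rfl)))
    rw [h1] at h3
    unfold LB at h2
    rw [if_neg (by omega), if_neg (by omega), if_neg (by omega), if_neg (by omega)] at h2
    have e : kk φ + 2 + c - (kk φ + 2) = c := by omega
    simp only [e, ec, List.mem_cons, List.not_mem_nil, or_false] at h2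
    obtain ⟨b1, b2, b3⟩ := hb _ hd
    have key : ∀ l : Bool × ℕ, l.2 < 3 * φ.length → b (kk φ + 2 + c) = op l →
        decide (a' (kk φ + 2 + l.2) = 5 + 2 * l.2) = l.1 := by
      intro l hl he
      have hp : kk φ + 2 + l.2 < nA φ := by unfold nA; omega
      have h4 := h'.2.2 (kk φ + 2 + l.2) hp (kk φ + 2 + c) hq
        ((bip_big (by omega) (by omega)).2 (Or.inr (Or.inr ⟨by omega, by omega⟩)))
      rw [he] at h4
      have h5 := hL _ hp
      unfold LA at h5
      rw [if_neg (by omega), if_neg (by omega), if_neg (by omega), if_neg (by omega)] at h5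
      have e' : kk φ + 2 + l.2 - (kk φ + 2) = l.2 := by omega
      simp only [e', List.mem_cons, List.not_mem_nil, or_false] at h5
      exact op_val h5 h4
    rcases h2 with h2 | h2 | h2 | h2
    · exact absurd h2.symm h3
    · exact Or.inl (key _ b1 h2)
    · exact Or.inr (Or.inl (key _ b2 h2))
    · exact Or.inr (Or.inr (key _ b3 h2))

theorem lk_stepB {φ : Fm} {a b b' : ℕ → ℕ} (h : Lk φ a b) (h' : Pr φ a b') : Lk φ a b' := by
  have h5 := kk_big φ
  have hAk : kk φ + 2 ≤ nA φ := by unfold nA; omega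
  have hBk : kk φ + 2 ≤ nB φ := by unfold nB; omega
  have hL : ∀ q < nB φ, b' q ∈ LB φ q := by
    intro q hq
    by_contra hc
    have hp := h'.2.1 q hq
    have := h'.2.2 (b' q) (by omega) q hq ((bip_lt' hp).2 hc)
    exact this (h.ha _ hp)
  refine ⟨h.ha, ?_, h.hy, h.hw, ?_, ?_, h.hA, hL⟩
  · intro q hq
    have h1 := hL q (by omega)
    by_cases h0 : q = 1
    · subst h0
      have h2 : b' 1 ≠ 0 := by
        have := h'.2.2 (kk φ) (by omega) 1 (by omega) ((bip_lt (by omega)).2 (by
          unfold LA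
          rw [if_neg (by omega), if_neg (by omega), if_pos rfl]; simp))
        rw [h.hy] at this
        exact this.symm
      unfold LB at h1
      simp only [if_true, List.mem_cons, List.not_mem_nil, or_false] at h1
      omega
    · unfold LB at h1
      rw [if_neg h0, if_pos hq] at h1
      simpa using h1
  · have h1 := hL (kk φ) (by omega)
    unfold LB at h1
    rw [if_neg (by omega), if_neg (by omega), if_pos rfl] at h1
    have h2 := h'.2.2 (kk φ + 1) (by omega) (kk φ) (by omega)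
      ((bip_big (by omega) le_rfl).2 (Or.inr (Or.inl rfl)))
    rw [h.hw] at h2
    simp only [List.mem_cons, List.not_mem_nil, or_false] at h1
    omega
  · have h1 := hL (kk φ + 1) (by omega)
    unfold LB at h1
    rw [if_neg (by omega), if_neg (by omega), if_neg (by omega), if_pos rfl] at h1
    have h2 := h'.2.2 (kk φ + 1) (by omega) (kk φ + 1) (by omega)
      ((bip_big (by omega) (by omega)).2 (Or.inr (Or.inl rfl)))
    rw [h.hw] at h2
    simp only [List.mem_cons, List.not_mem_nil, or_false] at h1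
    omega

/-- the function on the first side -/
def vA (φ : Fm) (f : Fin (nA φ + nB φ) → ℕ) (p : ℕ) : ℕ :=
  if h : p < nA φ then f ⟨p, by omega⟩ - 1 else 0

/-- the function on the second side -/
def vB (φ : Fm) (f : Fin (nA φ + nB φ) → ℕ) (q : ℕ) : ℕ :=
  if h : q < nB φ then f ⟨nA φ + q, by omega⟩ - 1 else 0

theorem pr_of_isCol {φ : Fm} {f : Fin (nA φ + nB φ) → ℕ} (hf : IsCol (GG φ) (kk φ) f) :
    Pr φ (vA φ f) (vB φ f) := by
  refine ⟨fun p hp => ?_, fun q hq => ?_, fun p hp q hq hb => ?_⟩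
  · unfold vA; rw [dif_pos hp]
    have := hf.1 ⟨p, by omega⟩
    omega
  · unfold vB; rw [dif_pos hq]
    have := hf.1 ⟨nA φ + q, by omega⟩
    omega
  · unfold vA vB
    rw [dif_pos hp, dif_pos hq]
    have h1 := hf.1 ⟨p, by omega⟩
    have h2 := hf.1 ⟨nA φ + q, by omega⟩
    have h3 := hf.2 ⟨p, by omega⟩ ⟨nA φ + q, by omega⟩ (adj_iff.2 (Or.inl ⟨hp, by simp, by
      simpa [Nat.add_sub_cancel_left] using hb⟩))
    omega

theorem Pr.congr {φ : Fm} {a b a' b' : ℕ → ℕ} (h : Pr φ a b) (ha : ∀ p < nA φ, a' p = a p)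
    (hb : ∀ q < nB φ, b' q = b q) : Pr φ a' b' := by
  refine ⟨fun p hp => ?_, fun q hq => ?_, fun p hp q hq hh => ?_⟩
  · rw [ha p hp]; exact h.1 p hp
  · rw [hb q hq]; exact h.2.1 q hq
  · rw [ha p hp, hb q hq]; exact h.2.2 p hp q hq hh

theorem lk_start {φ : Fm} : Lk φ (cA (kk φ)) (cB (kk φ)) := by
  have h5 := kk_big φ
  refine ⟨fun p hp => ?_, fun q hq => ?_, ?_, ?_, ?_, ?_, fun p hp => ?_, fun q hq => ?_⟩
  · unfold cA; rw [if_pos hp]
  · unfold cB; rw [if_pos hq]
  · unfold cA; rw [if_neg (by omega), if_pos rfl]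
  · unfold cA; rw [if_neg (by omega), if_neg (by omega), if_pos rfl]
  · unfold cB; rw [if_neg (by omega), if_pos rfl]
  · unfold cB; rw [if_neg (by omega), if_neg (by omega), if_pos rfl]
  · unfold cA LA
    by_cases h0 : p = 0
    · rw [if_pos h0, if_pos (by omega)]; simp [h0]
    · rw [if_neg h0]
      split_ifs <;> simp
  · unfold cB LB
    by_cases h0 : q = 1
    · rw [if_pos h0, if_pos (by omega)]; simp [h0]
    · rw [if_neg h0]
      split_ifs <;> simp

theorem vA_toF {φ : Fm} {a b : ℕ → ℕ} {p : ℕ} (hp : p < nA φ) : vA φ (toF φ a b) p = a p := by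
  unfold vA toF
  rw [dif_pos hp]
  simp [hp]

theorem vB_toF {φ : Fm} {a b : ℕ → ℕ} {q : ℕ} (hq : q < nB φ) : vB φ (toF φ a b) q = b q := by
  unfold vB toF
  rw [dif_pos hq]
  simp

theorem Lk.congr {φ : Fm} {a b a' b' : ℕ → ℕ} (h : Lk φ a b) (ha : ∀ p < nA φ, a' p = a p)
    (hb : ∀ q < nB φ, b' q = b q) : Lk φ a' b' := by
  have hAk : kk φ + 2 ≤ nA φ := by unfold nA; omega
  have hBk : kk φ + 2 ≤ nB φ := by unfold nB; omega
  refine ⟨fun p hp => ?_, fun q hq => ?_, ?_, ?_, ?_, ?_, fun p hp => ?_, fun q hq => ?_⟩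
  · rw [ha p (by omega)]; exact h.ha p hp
  · rw [hb q (by omega)]; exact h.hb q hq
  · rw [ha _ (by omega)]; exact h.hy
  · rw [ha _ (by omega)]; exact h.hw
  · rw [hb _ (by omega)]; exact h.hz
  · rw [hb _ (by omega)]; exact h.hz'
  · rw [ha p hp]; exact h.hA p hp
  · rw [hb q hq]; exact h.hB q hq

theorem locked {φ : Fm} (hb : Bounded3 φ) (hn : ¬ SAT3 φ) {f : Fin (nA φ + nB φ) → ℕ}
    (h : Reach (GG φ) (kk φ) (toF φ (cA (kk φ)) (cB (kk φ))) f) : Lk φ (vA φ f) (vB φ f) := by
  obtain ⟨-, h2⟩ := h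
  induction h2 with
  | refl => exact lk_start.congr (fun p hp => vA_toF hp) (fun q hq => vB_toF hq)
  | @tail f g _ hs ih =>
    obtain ⟨hg, v, hv⟩ := hs
    have hg' := pr_of_isCol hg
    by_cases hc : v.1 < nA φ
    · have e : ∀ q < nB φ, vB φ f q = vB φ g q := by
        intro q hq
        unfold vB
        rw [dif_pos hq, dif_pos hq, hv]
        intro he
        rw [← he] at hc
        simp at hc
      have h1 := lk_stepA hb hn ih (hg'.congr (fun p _ => rfl) e)
      exact h1.congr (fun p _ => rfl) (fun q hq => (e q hq).symm)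
    · have e : ∀ p < nA φ, vA φ f p = vA φ g p := by
        intro p hp
        unfold vA
        rw [dif_pos hp, dif_pos hp, hv]
        intro he
        rw [← he] at hc
        exact hc hp
      have h1 := lk_stepB ih (hg'.congr e (fun p _ => rfl))
      exact h1.congr (fun p hp => (e p hp).symm) (fun q _ => rfl)

theorem col_locked {φ : Fm} (hb : Bounded3 φ) (hn : ¬ SAT3 φ) {f : Fin (nA φ + nB φ) → ℕ}
    (h : Reach (GG φ) (kk φ) (toF φ (cA (kk φ)) (cB (kk φ))) f) : col f = kk φ := by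
  classical
  have hL := locked hb hn h
  have hf := h.isCol
  refine le_antisymm (col_le hf) ?_
  have hAk : kk φ + 2 ≤ nA φ := by unfold nA; omega
  have h1 : Finset.Icc 1 (kk φ) ⊆ Finset.univ.image f := by
    intro x hx
    rw [Finset.mem_Icc] at hx
    rw [Finset.mem_image]
    refine ⟨⟨x - 1, by omega⟩, Finset.mem_univ _, ?_⟩
    have h2 := hL.ha (x - 1) (by omega)
    unfold vA at h2
    rw [dif_pos (by omega)] at h2
    have h3 := hf.1 ⟨x - 1, by omega⟩
    omega
  have := Finset.card_le_card h1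
  simpa [col] using this

end Pool.Agent.Q230.RC
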