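import Pool.Agent.Q230.RC.Gen
import Pool.Agent.NPC.Sat2

set_option autoImplicit false

namespace Pool.Agent.Q230.RC

open Pool.Agent.NPC Relation

/-- a formula -/
abbrev Fm : Type := List (Lit ℕ × Lit ℕ × Lit ℕ)

/-- number of colours -/
def kk (φ : Fm) : ℕ := 6 * φ.length + 5

/-- number of vertices on the first side -/
def nA (φ : Fm) : ℕ := kk φ + 2 + 3 * φ.length

/-- number of vertices on the second side -/
def nB (φ : Fm) : ℕ := kk φ + 2 + φ.length

/-- the colour by which a clause vertex uses a literal -/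
def op (l : Bool × ℕ) : ℕ := if l.1 = true then 6 + 2 * l.2 else 5 + 2 * l.2

/-- the colours allowed on the first side -/
def LA (k p : ℕ) : List ℕ :=
  if p = 0 then [0, 1] else if p < k then [p] else if p = k then [0, 2] else
    if p = k + 1 then [3, 4] else [5 + 2 * (p - (k + 2)), 6 + 2 * (p - (k + 2))]

/-- a clause -/
def cl (φ : Fm) (c : ℕ) : Lit ℕ × Lit ℕ × Lit ℕ := φ.getD c ((true, 0), (true, 0), (true, 0))

/-- the colours allowed on the second side -/
def LB (φ : Fm) (q : ℕ) : List ℕ :=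
  if q = 1 then [0, 1] else if q < kk φ then [q] else if q = kk φ then [1, 3] else
    if q = kk φ + 1 then [2, 3] else
      [4, op (cl φ (q - (kk φ + 2))).1, op (cl φ (q - (kk φ + 2))).2.1,
        op (cl φ (q - (kk φ + 2))).2.2]

/-- adjacency between the sides -/
def bip (φ : Fm) (p q : ℕ) : Bool :=
  if q < kk φ then !decide (q ∈ LA (kk φ) p) else
    if p < kk φ then !decide (p ∈ LB φ q) else
      if p = kk φ then decide (q = kk φ + 1) else
        if p = kk φ + 1 then true else decide (kk φ + 2 ≤ q)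

/-- the edges -/
def edges (φ : Fm) : List (ℕ × ℕ) :=
  (List.range (nA φ)).flatMap fun p =>
    ((List.range (nB φ)).filter fun q => bip φ p q).map fun q => (p, nA φ + q)

/-- initial colours -/
def cA (k p : ℕ) : ℕ :=
  if p < k then p else if p = k then 0 else if p = k + 1 then 3 else 5 + 2 * (p - (k + 2))

/-- initial colours -/
def cB (k q : ℕ) : ℕ := if q < k then q else if q = k then 1 else if q = k + 1 then 2 else 4

/-- the instance -/
def inst (φ : Fm) : Inst :=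
  ((nA φ + nB φ, edges φ), kk φ,
    (List.range (nA φ + nB φ)).map fun u =>
      if u < nA φ then cA (kk φ) u + 1 else cB (kk φ) (u - nA φ) + 1)

theorem mem_edges {φ : Fm} {u v : ℕ} :
    (u, v) ∈ edges φ ↔ u < nA φ ∧ nA φ ≤ v ∧ v < nA φ + nB φ ∧ bip φ u (v - nA φ) = true := by
  unfold edges
  simp only [List.mem_flatMap, List.mem_map, List.mem_filter, List.mem_range, Prod.mk.injEq]
  constructor
  · rintro ⟨p, hp, q, ⟨hq, hb⟩, rfl, rfl⟩
    refine ⟨hp, by omega, by omega, ?_⟩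
    rwa [Nat.add_sub_cancel_left]
  · rintro ⟨h1, h2, h3, h4⟩
    exact ⟨u, h1, v - nA φ, ⟨by omega, h4⟩, rfl, by omega⟩

/-- the graph of the instance -/
abbrev GG (φ : Fm) : SimpleGraph (Fin (nA φ + nB φ)) := graph (nA φ + nB φ, edges φ)

theorem adj_iff {φ : Fm} {u v : Fin (nA φ + nB φ)} :
    (GG φ).Adj u v ↔ (u.1 < nA φ ∧ nA φ ≤ v.1 ∧ bip φ u.1 (v.1 - nA φ) = true) ∨
      (v.1 < nA φ ∧ nA φ ≤ u.1 ∧ bip φ v.1 (u.1 - nA φ) = true) := by
  unfold GG graph
  rw [SimpleGraph.fromRel_adj]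
  simp only [mem_edges]
  constructor
  · rintro ⟨_, ⟨h1, h2, _, h3⟩ | ⟨h1, h2, _, h3⟩⟩
    · exact Or.inl ⟨h1, h2, h3⟩
    · exact Or.inr ⟨h1, h2, h3⟩
  · rintro (⟨h1, h2, h3⟩ | ⟨h1, h2, h3⟩)
    · refine ⟨?_, Or.inl ⟨h1, h2, v.2, h3⟩⟩
      rintro rfl; omega
    · refine ⟨?_, Or.inr ⟨h1, h2, u.2, h3⟩⟩
      rintro rfl; omega

/-- the colouring given by functions on the two sides -/
def toF (φ : Fm) (a b : ℕ → ℕ) : Fin (nA φ + nB φ) → ℕ :=
  fun v => if v.1 < nA φ then a v.1 + 1 else b (v.1 - nA φ) + 1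

/-- a pair of functions is a colouring -/
def Pr (φ : Fm) (a b : ℕ → ℕ) : Prop :=
  (∀ p < nA φ, a p < kk φ) ∧ (∀ q < nB φ, b q < kk φ) ∧
    ∀ p < nA φ, ∀ q < nB φ, bip φ p q = true → a p ≠ b q

theorem isCol_toF {φ : Fm} {a b : ℕ → ℕ} (h : Pr φ a b) : IsCol (GG φ) (kk φ) (toF φ a b) := by
  obtain ⟨h1, h2, h3⟩ := h
  refine ⟨fun v => ?_, fun u v huv => ?_⟩
  · unfold toF
    split_ifs with hv
    · have := h1 _ hv; omega
    · have := h2 (v.1 - nA φ) (by have := v.2; omega)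
      omega
  · rw [adj_iff] at huv
    unfold toF
    rcases huv with ⟨e1, e2, e3⟩ | ⟨e1, e2, e3⟩
    · rw [if_pos e1, if_neg (by omega)]
      have := h3 _ e1 (v.1 - nA φ) (by have := v.2; omega) e3
      omega
    · rw [if_neg (by omega), if_pos e1]
      have := h3 _ e1 (u.1 - nA φ) (by have := u.2; omega) e3
      omega

theorem reachA {φ : Fm} {a a' b : ℕ → ℕ} (h : Pr φ a b) (h' : Pr φ a' b) :
    Reach (GG φ) (kk φ) (toF φ a b) (toF φ a' b) := by
  refine reach_of (isCol_toF h) (isCol_toF h') fun u v huv => ?_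
  rw [adj_iff] at huv
  unfold toF
  rcases huv with ⟨e1, e2, e3⟩ | ⟨e1, e2, e3⟩
  · right; rw [if_neg (by omega), if_neg (by omega)]
  · left; rw [if_neg (by omega), if_neg (by omega)]

theorem reachB {φ : Fm} {a b b' : ℕ → ℕ} (h : Pr φ a b) (h' : Pr φ a b') :
    Reach (GG φ) (kk φ) (toF φ a b) (toF φ a b') := by
  refine reach_of (isCol_toF h) (isCol_toF h') fun u v huv => ?_
  rw [adj_iff] at huv
  unfold toF
  rcases huv with ⟨e1, e2, e3⟩ | ⟨e1, e2, e3⟩
  · left; rw [if_pos e1, if_pos e1]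
  · right; rw [if_pos e1, if_pos e1]

theorem two_colorable (φ : Fm) : (GG φ).Colorable 2 := by
  refine ⟨SimpleGraph.Coloring.mk (fun v => if v.1 < nA φ then 0 else 1) ?_⟩
  intro u v huv
  rw [adj_iff] at huv
  rcases huv with ⟨e1, e2, e3⟩ | ⟨e1, e2, e3⟩
  · rw [if_pos e1, if_neg (by omega)]; decide
  · rw [if_neg (by omega), if_pos e1]; decide

theorem start_inst (φ : Fm) : start (inst φ) = toF φ (cA (kk φ)) (cB (kk φ)) := by
  funext v
  unfold start inst toF
  have hv : v.1 < nA φ + nB φ := v.2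
  simp only [List.getD_eq_getElem?_getD, List.getElem?_map]
  rw [List.getElem?_range hv]
  rfl

theorem kk_big (φ : Fm) : 5 ≤ kk φ := by unfold kk; omega

/-- adjacency to the frozen vertices of the second side -/
theorem bip_lt {φ : Fm} {p q : ℕ} (hq : q < kk φ) : bip φ p q = true ↔ q ∉ LA (kk φ) p := by
  unfold bip
  rw [if_pos hq]
  simp

theorem mem_LA_LB {φ : Fm} {p q : ℕ} (hp : p < kk φ) (hq : q < kk φ) :
    q ∈ LA (kk φ) p ↔ p ∈ LB φ q := by
  unfold LA LB
  split_ifs <;> simp <;> omega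

theorem bip_lt' {φ : Fm} {p q : ℕ} (hp : p < kk φ) : bip φ p q = true ↔ p ∉ LB φ q := by
  by_cases hq : q < kk φ
  · rw [bip_lt hq, mem_LA_LB hp hq]
  · unfold bip
    rw [if_neg hq, if_pos hp]
    simp

end Pool.Agent.Q230.RC
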