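import Pool.Agent.Q230.RC.No

set_option autoImplicit false

namespace Pool.Agent.Q230.RC

open Pool.Agent.NPC Relation

theorem LA_lt {φ : Fm} {p x : ℕ} (hp : p < nA φ) (h : x ∈ LA (kk φ) p) : x < kk φ := by
  have h5 := kk_big φ
  unfold LA at h
  unfold nA at hp
  have hk : kk φ = 6 * φ.length + 5 := rfl
  split_ifs at h <;> simp only [List.mem_cons, List.not_mem_nil, or_false] at h <;> omega

theorem op_lt {φ : Fm} {l : Bool × ℕ} (h : l.2 < 3 * φ.length) : op l < kk φ ∧ 5 ≤ op l := by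
  unfold op kk
  split_ifs <;> omega

theorem LB_lt {φ : Fm} (hb : Bounded3 φ) {q x : ℕ} (hq : q < nB φ) (h : x ∈ LB φ q) :
    x < kk φ := by
  have h5 := kk_big φ
  unfold LB at h
  split_ifs at h with h1 h2 h3 h4
  · simp only [List.mem_cons, List.not_mem_nil, or_false] at h; omega
  · simp only [List.mem_cons, List.not_mem_nil, or_false] at h; omega
  · simp only [List.mem_cons, List.not_mem_nil, or_false] at h; omega
  · simp only [List.mem_cons, List.not_mem_nil, or_false] at h; omega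
  · have hc : q - (kk φ + 2) < φ.length := by unfold nB at hq; omega
    obtain ⟨b1, b2, b3⟩ := hb _ (cl_mem hc)
    simp only [List.mem_cons, List.not_mem_nil, or_false] at h
    rcases h with h | h | h | h
    · omega
    · rw [h]; exact (op_lt b1).1
    · rw [h]; exact (op_lt b2).1
    · rw [h]; exact (op_lt b3).1

theorem pr_of {φ : Fm} (hb : Bounded3 φ) {a b : ℕ → ℕ} (hA : ∀ p < nA φ, a p ∈ LA (kk φ) p)
    (hB : ∀ q < nB φ, b q ∈ LB φ q)
    (h1 : ∀ p < nA φ, ∀ q < kk φ, q ∉ LA (kk φ) p → a p ≠ b q)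
    (h2 : ∀ p < kk φ, ∀ q, kk φ ≤ q → q < nB φ → p ∉ LB φ q → a p ≠ b q)
    (h3 : a (kk φ) ≠ b (kk φ + 1)) (h4 : ∀ q, kk φ ≤ q → q < nB φ → a (kk φ + 1) ≠ b q)
    (h5 : ∀ i < 3 * φ.length, ∀ c < φ.length, a (kk φ + 2 + i) ≠ b (kk φ + 2 + c)) :
    Pr φ a b := by
  refine ⟨fun p hp => LA_lt hp (hA p hp), fun q hq => LB_lt hb hq (hB q hq),
    fun p hp q hq hbp => ?_⟩
  by_cases hqk : q < kk φ
  · exact h1 p hp q hqk ((bip_lt hqk).1 hbp)
  by_cases hpk : p < kk φ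
  · exact h2 p hpk q (by omega) hq ((bip_lt' hpk).1 hbp)
  rcases (bip_big (by omega) (by omega)).1 hbp with ⟨rfl, rfl⟩ | rfl | ⟨e1, e2⟩
  · exact h3
  · exact h4 q (by omega) hq
  · have := h5 (p - (kk φ + 2)) (by unfold nA at hp; omega) (q - (kk φ + 2))
      (by unfold nB at hq; omega)
    rwa [show kk φ + 2 + (p - (kk φ + 2)) = p by omega,
      show kk φ + 2 + (q - (kk φ + 2)) = q by omega] at this

/-- a satisfied literal of a clause -/
def sel (φ : Fm) (τ : ℕ → Bool) (c : ℕ) : Lit ℕ :=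
  if τ (cl φ c).1.2 = (cl φ c).1.1 then (cl φ c).1 else
    if τ (cl φ c).2.1.2 = (cl φ c).2.1.1 then (cl φ c).2.1 else (cl φ c).2.2

theorem sel_spec {φ : Fm} {τ : ℕ → Bool}
    (hτ : ∀ c ∈ φ, τ c.1.2 = c.1.1 ∨ τ c.2.1.2 = c.2.1.1 ∨ τ c.2.2.2 = c.2.2.1) {c : ℕ}
    (hc : c < φ.length) : τ (sel φ τ c).2 = (sel φ τ c).1 ∧
      (sel φ τ c = (cl φ c).1 ∨ sel φ τ c = (cl φ c).2.1 ∨ sel φ τ c = (cl φ c).2.2) := by
  have := hτ _ (cl_mem hc)
  unfold sel
  split_ifs with h1 h2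
  · exact ⟨h1, Or.inl rfl⟩
  · exact ⟨h2, Or.inr (Or.inl rfl)⟩
  · refine ⟨?_, Or.inr (Or.inr rfl)⟩
    rcases this with h | h | h
    · exact absurd h h1
    · exact absurd h h2
    · exact h

/-- first stage on the first side -/
def a1 (k : ℕ) (τ : ℕ → Bool) (p : ℕ) : ℕ :=
  if p < k + 2 then cA k p else if τ (p - (k + 2)) = true then 5 + 2 * (p - (k + 2)) else
    6 + 2 * (p - (k + 2))

/-- second stage on the first side -/
def a2 (k : ℕ) (τ : ℕ → Bool) (p : ℕ) : ℕ := if p = k + 1 then 4 else a1 k τ p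

/-- third stage on the first side -/
def a3 (k : ℕ) (τ : ℕ → Bool) (p : ℕ) : ℕ := if p = k then 2 else if p = 0 then 1 else a2 k τ p

/-- first stage on the second side -/
def b1 (φ : Fm) (τ : ℕ → Bool) (q : ℕ) : ℕ :=
  if q < kk φ + 2 then cB (kk φ) q else op (sel φ τ (q - (kk φ + 2)))

/-- second stage on the second side -/
def b2 (φ : Fm) (τ : ℕ → Bool) (q : ℕ) : ℕ := if q = kk φ ∨ q = kk φ + 1 then 3 else b1 φ τ q

/-- third stage on the second side -/
def b3 (φ : Fm) (τ : ℕ → Bool) (q : ℕ) : ℕ := if q = 1 then 0 else b2 φ τ q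

section

variable {φ : Fm} (hb : Bounded3 φ) {τ : ℕ → Bool}
  (hτ : ∀ c ∈ φ, τ c.1.2 = c.1.1 ∨ τ c.2.1.2 = c.2.1.1 ∨ τ c.2.2.2 = c.2.2.1)

theorem mem_a0 (p : ℕ) : cA (kk φ) p ∈ LA (kk φ) p := by
  have h5 := kk_big φ
  unfold cA LA
  by_cases h0 : p = 0
  · rw [if_pos h0, if_pos (by omega)]; simp [h0]
  · rw [if_neg h0]
    split_ifs <;> simp

theorem mem_a1 (p : ℕ) : a1 (kk φ) τ p ∈ LA (kk φ) p := by
  have h5 := kk_big φ
  unfold a1
  by_cases h : p < kk φ + 2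
  · rw [if_pos h]; exact mem_a0 p
  · rw [if_neg h]
    unfold LA
    rw [if_neg (by omega), if_neg (by omega), if_neg (by omega), if_neg (by omega)]
    split_ifs <;> simp

theorem mem_a2 (p : ℕ) : a2 (kk φ) τ p ∈ LA (kk φ) p := by
  have h5 := kk_big φ
  unfold a2
  split_ifs with h
  · unfold LA
    rw [if_neg (by omega), if_neg (by omega), if_neg (by omega), if_pos h]
    simp
  · exact mem_a1 p

theorem mem_a3 (p : ℕ) : a3 (kk φ) τ p ∈ LA (kk φ) p := by
  have h5 := kk_big φ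
  unfold a3
  split_ifs with h h'
  · unfold LA
    rw [if_neg (by omega), if_neg (by omega), if_pos h]
    simp
  · unfold LA
    rw [if_pos h']
    simp
  · exact mem_a2 p

theorem mem_b0 (q : ℕ) : cB (kk φ) q ∈ LB φ q := by
  have h5 := kk_big φ
  unfold cB LB
  by_cases h0 : q = 1
  · rw [if_pos h0, if_pos (by omega)]; simp [h0]
  · rw [if_neg h0]
    split_ifs <;> simp

include hτ in
theorem mem_b1 {q : ℕ} (hq : q < nB φ) : b1 φ τ q ∈ LB φ q := by
  have h5 := kk_big φ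
  unfold b1
  by_cases h : q < kk φ + 2
  · rw [if_pos h]; exact mem_b0 q
  · rw [if_neg h]
    unfold LB
    rw [if_neg (by omega), if_neg (by omega), if_neg (by omega), if_neg (by omega)]
    obtain ⟨-, h1 | h1 | h1⟩ := sel_spec hτ (show q - (kk φ + 2) < φ.length by
      unfold nB at hq; omega) <;> simp [h1]

include hτ in
theorem mem_b2 {q : ℕ} (hq : q < nB φ) : b2 φ τ q ∈ LB φ q := by
  have h5 := kk_big φ
  unfold b2
  split_ifs with h
  · unfold LB
    rcases h with h | h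
    · rw [if_neg (by omega), if_neg (by omega), if_pos h]; simp
    · rw [if_neg (by omega), if_neg (by omega), if_neg (by omega), if_pos h]; simp
  · exact mem_b1 hτ hq

include hτ in
theorem mem_b3 {q : ℕ} (hq : q < nB φ) : b3 φ τ q ∈ LB φ q := by
  have h5 := kk_big φ
  unfold b3
  split_ifs with h
  · unfold LB
    rw [if_pos h]; simp
  · exact mem_b2 hτ hq

theorem ca_lt {k p : ℕ} (h : p < k) : cA k p = p := by unfold cA; rw [if_pos h]

theorem a1_lt {k p : ℕ} (h : p < k) : a1 k τ p = p := by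
  unfold a1; rw [if_pos (by omega), ca_lt h]

theorem a2_lt {k p : ℕ} (h : p < k) : a2 k τ p = p := by
  unfold a2; rw [if_neg (by omega), a1_lt h]

theorem cb_lt {k q : ℕ} (h : q < k) : cB k q = q := by unfold cB; rw [if_pos h]

theorem b1_lt {q : ℕ} (h : q < kk φ) : b1 φ τ q = q := by
  unfold b1; rw [if_pos (by omega), cb_lt h]

theorem b2_lt {q : ℕ} (h : q < kk φ) : b2 φ τ q = q := by
  unfold b2; rw [if_neg (by omega), b1_lt h]

theorem ca_k {k : ℕ} : cA k k = 0 := by simp [cA]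
theorem ca_k1 {k : ℕ} : cA k (k + 1) = 3 := by simp [cA]
theorem ca_x {k i : ℕ} : cA k (k + 2 + i) = 5 + 2 * i := by
  unfold cA
  rw [if_neg (by omega), if_neg (by omega), if_neg (by omega)]
  congr 2; omega
theorem a1_k {k : ℕ} : a1 k τ k = 0 := by simp [a1, ca_k]
theorem a1_k1 {k : ℕ} : a1 k τ (k + 1) = 3 := by simp [a1, ca_k1]
theorem a1_x {k i : ℕ} : a1 k τ (k + 2 + i) = if τ i = true then 5 + 2 * i else 6 + 2 * i := by
  unfold a1
  rw [if_neg (by omega), show k + 2 + i - (k + 2) = i by omega]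
theorem a2_k {k : ℕ} : a2 k τ k = 0 := by simp [a2, a1_k]
theorem a2_k1 {k : ℕ} : a2 k τ (k + 1) = 4 := by simp [a2]
theorem a2_x {k i : ℕ} : a2 k τ (k + 2 + i) = a1 k τ (k + 2 + i) := by
  unfold a2
  rw [if_neg (by omega)]
theorem a3_x {k i : ℕ} : a3 k τ (k + 2 + i) = a1 k τ (k + 2 + i) := by
  unfold a3
  rw [if_neg (by omega), if_neg (by omega), a2_x]
theorem cb_k {k : ℕ} : cB k k = 1 := by simp [cB]
theorem cb_k1 {k : ℕ} : cB k (k + 1) = 2 := by simp [cB]
theorem cb_v {k c : ℕ} : cB k (k + 2 + c) = 4 := by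
  unfold cB
  rw [if_neg (by omega), if_neg (by omega), if_neg (by omega)]
theorem b1_k : b1 φ τ (kk φ) = 1 := by simp [b1, cb_k]
theorem b1_k1 : b1 φ τ (kk φ + 1) = 2 := by simp [b1, cb_k1]
theorem b1_v {c : ℕ} : b1 φ τ (kk φ + 2 + c) = op (sel φ τ c) := by
  unfold b1
  rw [if_neg (by omega), show kk φ + 2 + c - (kk φ + 2) = c by omega]
theorem b2_v {c : ℕ} : b2 φ τ (kk φ + 2 + c) = op (sel φ τ c) := by
  unfold b2
  rw [if_neg (by omega), b1_v]

include hb hτ in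
theorem sel_ge {c : ℕ} (hc : c < φ.length) : 5 ≤ op (sel φ τ c) := by
  obtain ⟨c1, c2, c3⟩ := hb _ (cl_mem hc)
  obtain ⟨-, h1 | h1 | h1⟩ := sel_spec hτ hc
  · rw [h1]; exact (op_lt c1).2
  · rw [h1]; exact (op_lt c2).2
  · rw [h1]; exact (op_lt c3).2

include hτ in
theorem a1_sel {i c : ℕ} (hc : c < φ.length) :
    a1 (kk φ) τ (kk φ + 2 + i) ≠ op (sel φ τ c) := by
  rw [a1_x]
  have h1 := (sel_spec hτ hc).1
  generalize sel φ τ c = l at h1 ⊢
  obtain ⟨b, j⟩ := l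
  simp only at h1
  unfold op
  cases b
  · simp only [Bool.false_eq_true, if_false]
    by_cases h : j = i
    · subst h; rw [h1]; simp
    · split_ifs <;> omega
  · simp only [if_true]
    by_cases h : j = i
    · subst h; rw [h1]; simp
    · split_ifs <;> omega

/-- the big vertices of the second side -/
theorem big_cases {q : ℕ} (h1 : kk φ ≤ q) (h2 : q < nB φ) :
    q = kk φ ∨ q = kk φ + 1 ∨ ∃ c < φ.length, q = kk φ + 2 + c := by
  by_cases e1 : q = kk φ
  · exact Or.inl e1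
  by_cases e2 : q = kk φ + 1
  · exact Or.inr (Or.inl e2)
  · exact Or.inr (Or.inr ⟨q - (kk φ + 2), by unfold nB at h2; omega, by omega⟩)

include hb in
theorem pr00 : Pr φ (cA (kk φ)) (cB (kk φ)) := by
  have h5 := kk_big φ
  refine pr_of hb (fun p _ => mem_a0 p) (fun q _ => mem_b0 q) ?_ ?_ ?_ ?_ ?_
  · intro p hp q hq hn he
    rw [cb_lt hq] at he
    exact hn (he ▸ mem_a0 p)
  · intro p hp q h1 h2 hn he
    rw [ca_lt hp] at he
    exact hn (he ▸ mem_b0 q)
  · rw [ca_k, cb_k1]; omega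
  · intro q h1 h2
    rw [ca_k1]
    rcases big_cases h1 h2 with rfl | rfl | ⟨c, hc, rfl⟩
    · rw [cb_k]; omega
    · rw [cb_k1]; omega
    · rw [cb_v]; omega
  · intro i hi c hc
    rw [ca_x, cb_v]; omega

include hb in
theorem pr10 : Pr φ (a1 (kk φ) τ) (cB (kk φ)) := by
  have h5 := kk_big φ
  refine pr_of hb (fun p _ => mem_a1 p) (fun q _ => mem_b0 q) ?_ ?_ ?_ ?_ ?_
  · intro p hp q hq hn he
    rw [cb_lt hq] at he
    exact hn (he ▸ mem_a1 p)
  · intro p hp q h1 h2 hn he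
    rw [a1_lt hp] at he
    exact hn (he ▸ mem_b0 q)
  · rw [a1_k, cb_k1]; omega
  · intro q h1 h2
    rw [a1_k1]
    rcases big_cases h1 h2 with rfl | rfl | ⟨c, hc, rfl⟩
    · rw [cb_k]; omega
    · rw [cb_k1]; omega
    · rw [cb_v]; omega
  · intro i hi c hc
    rw [a1_x, cb_v]; split_ifs <;> omega

include hb hτ in
theorem pr11 : Pr φ (a1 (kk φ) τ) (b1 φ τ) := by
  have h5 := kk_big φ
  refine pr_of hb (fun p _ => mem_a1 p) (fun q hq => mem_b1 hτ hq) ?_ ?_ ?_ ?_ ?_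
  · intro p hp q hq hn he
    rw [b1_lt hq] at he
    exact hn (he ▸ mem_a1 p)
  · intro p hp q h1 h2 hn he
    rw [a1_lt hp] at he
    exact hn (he ▸ mem_b1 hτ h2)
  · rw [a1_k, b1_k1]; omega
  · intro q h1 h2
    rw [a1_k1]
    rcases big_cases h1 h2 with rfl | rfl | ⟨c, hc, rfl⟩
    · rw [b1_k]; omega
    · rw [b1_k1]; omega
    · rw [b1_v]; have := sel_ge hb hτ hc; omega
  · intro i hi c hc
    rw [b1_v]; exact a1_sel hτ hc

include hb hτ in
theorem pr21 : Pr φ (a2 (kk φ) τ) (b1 φ τ) := by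
  have h5 := kk_big φ
  refine pr_of hb (fun p _ => mem_a2 p) (fun q hq => mem_b1 hτ hq) ?_ ?_ ?_ ?_ ?_
  · intro p hp q hq hn he
    rw [b1_lt hq] at he
    exact hn (he ▸ mem_a2 p)
  · intro p hp q h1 h2 hn he
    rw [a2_lt hp] at he
    exact hn (he ▸ mem_b1 hτ h2)
  · rw [a2_k, b1_k1]; omega
  · intro q h1 h2
    rw [a2_k1]
    rcases big_cases h1 h2 with rfl | rfl | ⟨c, hc, rfl⟩
    · rw [b1_k]; omega
    · rw [b1_k1]; omega
    · rw [b1_v]; have := sel_ge hb hτ hc; omega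
  · intro i hi c hc
    rw [b1_v, a2_x]; exact a1_sel hτ hc

theorem b2_k : b2 φ τ (kk φ) = 3 := by simp [b2]
theorem b2_k1 : b2 φ τ (kk φ + 1) = 3 := by simp [b2]

include hb hτ in
theorem pr22 : Pr φ (a2 (kk φ) τ) (b2 φ τ) := by
  have h5 := kk_big φ
  refine pr_of hb (fun p _ => mem_a2 p) (fun q hq => mem_b2 hτ hq) ?_ ?_ ?_ ?_ ?_
  · intro p hp q hq hn he
    rw [b2_lt hq] at he
    exact hn (he ▸ mem_a2 p)
  · intro p hp q h1 h2 hn he
    rw [a2_lt hp] at he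
    exact hn (he ▸ mem_b2 hτ h2)
  · rw [a2_k, b2_k1]; omega
  · intro q h1 h2
    rw [a2_k1]
    rcases big_cases h1 h2 with rfl | rfl | ⟨c, hc, rfl⟩
    · rw [b2_k]; omega
    · rw [b2_k1]; omega
    · rw [b2_v]; have := sel_ge hb hτ hc; omega
  · intro i hi c hc
    rw [b2_v, a2_x]; exact a1_sel hτ hc

theorem a3_k {k : ℕ} : a3 k τ k = 2 := by simp [a3]
theorem a3_0 {k : ℕ} (hk : 0 < k) : a3 k τ 0 = 1 := by
  unfold a3; rw [if_neg (by omega), if_pos rfl]
theorem a3_lt {k p : ℕ} (h : p < k) (h0 : p ≠ 0) : a3 k τ p = p := by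
  unfold a3; rw [if_neg (by omega), if_neg h0, a2_lt h]
theorem a3_k1 {k : ℕ} : a3 k τ (k + 1) = 4 := by simp [a3, a2_k1]

include hb hτ in
theorem pr32 : Pr φ (a3 (kk φ) τ) (b2 φ τ) := by
  have h5 := kk_big φ
  refine pr_of hb (fun p _ => mem_a3 p) (fun q hq => mem_b2 hτ hq) ?_ ?_ ?_ ?_ ?_
  · intro p hp q hq hn he
    rw [b2_lt hq] at he
    exact hn (he ▸ mem_a3 p)
  · intro p hp q h1 h2 hn he
    by_cases h0 : p = 0
    · subst h0
      rw [a3_0 (by omega)] at he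
      rcases big_cases h1 h2 with rfl | rfl | ⟨c, hc, rfl⟩
      · rw [b2_k] at he; omega
      · rw [b2_k1] at he; omega
      · rw [b2_v] at he; have := sel_ge hb hτ hc; omega
    · rw [a3_lt hp h0] at he
      exact hn (he ▸ mem_b2 hτ h2)
  · rw [a3_k, b2_k1]; omega
  · intro q h1 h2
    rw [a3_k1]
    rcases big_cases h1 h2 with rfl | rfl | ⟨c, hc, rfl⟩
    · rw [b2_k]; omega
    · rw [b2_k1]; omega
    · rw [b2_v]; have := sel_ge hb hτ hc; omega
  · intro i hi c hc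
    rw [b2_v, a3_x]; exact a1_sel hτ hc

theorem b3_of {q : ℕ} (h : q ≠ 1) : b3 φ τ q = b2 φ τ q := by unfold b3; rw [if_neg h]

theorem a3_ne_zero {k p : ℕ} (hk : 5 ≤ k) : a3 k τ p ≠ 0 := by
  unfold a3 a2 a1 cA
  split_ifs <;> omega

include hb hτ in
theorem pr33 : Pr φ (a3 (kk φ) τ) (b3 φ τ) := by
  have h5 := kk_big φ
  refine pr_of hb (fun p _ => mem_a3 p) (fun q hq => mem_b3 hτ hq) ?_ ?_ ?_ ?_ ?_
  · intro p hp q hq hn he
    by_cases h1 : q = 1
    · subst h1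
      unfold b3 at he
      rw [if_pos rfl] at he
      exact a3_ne_zero h5 he
    · rw [b3_of h1, b2_lt hq] at he
      exact hn (he ▸ mem_a3 p)
  · intro p hp q h1 h2 hn he
    rw [b3_of (by omega)] at he
    by_cases h0 : p = 0
    · subst h0
      rw [a3_0 (by omega)] at he
      rcases big_cases h1 h2 with rfl | rfl | ⟨c, hc, rfl⟩
      · rw [b2_k] at he; omega
      · rw [b2_k1] at he; omega
      · rw [b2_v] at he; have := sel_ge hb hτ hc; omega
    · rw [a3_lt hp h0] at he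
      exact hn (he ▸ mem_b2 hτ h2)
  · rw [a3_k, b3_of (by omega), b2_k1]; omega
  · intro q h1 h2
    rw [a3_k1, b3_of (by omega)]
    rcases big_cases h1 h2 with rfl | rfl | ⟨c, hc, rfl⟩
    · rw [b2_k]; omega
    · rw [b2_k1]; omega
    · rw [b2_v]; have := sel_ge hb hτ hc; omega
  · intro i hi c hc
    rw [b3_of (by omega), b2_v, a3_x]; exact a1_sel hτ hc

include hb hτ in
theorem pr43 : Pr φ (fun _ => 1) (b3 φ τ) := by
  have h5 := kk_big φ
  refine ⟨fun p hp => (by omega : 1 < kk φ), fun q hq => LB_lt hb hq (mem_b3 hτ hq),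
    fun p hp q hq _ => ?_⟩
  change 1 ≠ b3 φ τ q
  by_cases h1 : q = 1
  · subst h1; unfold b3; rw [if_pos rfl]; omega
  · rw [b3_of h1]
    by_cases h2 : q < kk φ
    · rw [b2_lt h2]; omega
    · rcases big_cases (by omega) hq with rfl | rfl | ⟨c, hc, rfl⟩
      · rw [b2_k]; omega
      · rw [b2_k1]; omega
      · rw [b2_v]; have := sel_ge hb hτ hc; omega

theorem pr44 : Pr φ (fun _ => 1) (fun _ => 0) := by
  have h5 := kk_big φ
  exact ⟨fun p hp => (by omega : 1 < kk φ), fun q hq => (by omega : 0 < kk φ),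
    fun p hp q hq _ => (by omega : 1 ≠ 0)⟩

include hb hτ in
theorem reach_two : Reach (GG φ) (kk φ) (toF φ (cA (kk φ)) (cB (kk φ)))
    (toF φ (fun _ => 1) (fun _ => 0)) :=
  (reachA (pr00 hb) (pr10 hb)).trans <| (reachB (pr10 hb) (pr11 hb hτ)).trans <|
    (reachA (pr11 hb hτ) (pr21 hb hτ)).trans <| (reachB (pr21 hb hτ) (pr22 hb hτ)).trans <|
    (reachA (pr22 hb hτ) (pr32 hb hτ)).trans <| (reachB (pr32 hb hτ) (pr33 hb hτ)).trans <|
    (reachA (pr33 hb hτ) (pr43 hb hτ)).trans (reachB (pr43 hb hτ) pr44)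

end

theorem col_two (φ : Fm) : col (toF φ (fun _ => 1) (fun _ => 0)) ≤ 2 := by
  classical
  unfold col
  have h1 : Finset.univ.image (toF φ (fun _ => 1) (fun _ => 0)) ⊆ {1, 2} := by
    intro x hx
    rw [Finset.mem_image] at hx
    obtain ⟨v, -, rfl⟩ := hx
    unfold toF
    split_ifs <;> simp
  exact (Finset.card_le_card h1).trans (Finset.card_insert_le _ _)

end Pool.Agent.Q230.RC
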